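import Pool.Agent.TH116.PT.Basic

/-!
# Navarro's blockwise conjecture for p-group extensions up to a subpolynomial factor

Consider triples `b = (G ⊴ Γ, B)`, `Γ/G` a `p`-group and `B` a `Γ`-invariant block of `G`. Let `i(b)`
be the number of `Γ`-invariant irreducible Brauer characters in `B`, and `z(b)` the right-hand side of
Navarro's conjecture, the sum of the numbers of defect zero characters of the groups `N_Γ(Q)/Q` over
`B` for `Q` in `Θ_B/Γ`. The power of `b` is `(G^n ⊴ Γ^n, B ⊗ ... ⊗ B)`. Both numbers are multiplicative: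
the subgroups `Q` of `Γ^n` which contribute are radical, hence products of subgroups `Q_i` of `Γ`, and
`Γ^n = G^n Q` if and only if `Γ = G Q_i` for all `i`.

Theorem. Navarro's conjecture `i(b) = z(b)` holds for all triples if and only if it holds up to a
factor `|Γ|^{o(1)}`, i.e. for all `ε > 0` there is `C` such that `i(b) ≤ C |Γ|^ε z(b)` and
`z(b) ≤ C |Γ|^ε i(b)`. The two inequalities are also separately equivalent to their versions up to
such factors.
-/

set_option autoImplicit false

universe u

namespace Pool.Agent.Results.MP_0c8ca5_al.SubpolynomialFactor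

/-- A family of triples `(G ⊴ Γ, B)` closed under powers, with the numbers of the two sides of
Navarro's conjecture. -/
structure Family where
  /-- the blocks `b` (with the groups `G` which they belong to) -/
  B : Type u
  /-- the block `b ⊗ ... ⊗ b` of `G × ... × G` -/
  pow : B → ℕ → B
  /-- the order of `G` -/
  order : B → ℕ
  order_pos : ∀ b, 1 ≤ order b
  order_pow : ∀ b n, order (pow b n) = order b ^ n
  /-- the number of `Γ`-invariant irreducible Brauer characters in `B` -/
  i : B → ℕ
  i_pow : ∀ b n, i (pow b n) = i b ^ n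
  /-- the number on the right-hand side of Navarro's conjecture -/
  z : B → ℕ
  z_pow : ∀ b n, z (pow b n) = z b ^ n

/-- For every family of triples closed under powers, the inequalities `i ≤ z`, `z ≤ i`, and the
equality `i = z` are equivalent to their versions up to factors `C |Γ| ^ ε`, `ε > 0`. -/
theorem result (T : Family.{u}) :
    ((∀ b, T.i b ≤ T.z b) ↔ ∀ ε : ℝ, 0 < ε → ∃ C : ℝ, ∀ b,
      (T.i b : ℝ) ≤ C * (T.order b : ℝ) ^ ε * T.z b) ∧
    ((∀ b, T.z b ≤ T.i b) ↔ ∀ ε : ℝ, 0 < ε → ∃ C : ℝ, ∀ b,
      (T.z b : ℝ) ≤ C * (T.order b : ℝ) ^ ε * T.i b) ∧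
    ((∀ b, T.i b = T.z b) ↔ ∀ ε : ℝ, 0 < ε → ∃ C : ℝ, ∀ b,
      (T.i b : ℝ) ≤ C * (T.order b : ℝ) ^ ε * T.z b ∧
        (T.z b : ℝ) ≤ C * (T.order b : ℝ) ^ ε * T.i b) := by
  have h := Pool.Agent.TH116.PT.multiplicative_iff T.pow (f := fun b => (T.i b : ℝ))
    (g := fun b => (T.z b : ℝ)) (s := fun b => (T.order b : ℝ))
    (fun b n => by rw [T.i_pow]; push_cast; rfl)
    (fun b n => by rw [T.z_pow]; push_cast; rfl)
    (fun b n => by rw [T.order_pow]; push_cast; exact le_rfl)
    (fun b => Nat.cast_nonneg _) (fun b => Nat.cast_nonneg _)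
    (fun b => by exact_mod_cast T.order_pos b)
  simpa only [Nat.cast_le, Nat.cast_inj] using h

end Pool.Agent.Results.MP_0c8ca5_al.SubpolynomialFactor
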